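import Pool.Agent.MWG.Stmts

/-!
# Row FIL: `F` inserts a square behind the second and before the last occurrence
-/

namespace Pool.Agent.MWG.H25

open Pool.Agent.Helper14_MV Pool.Agent.Helper2_MV Pool.Agent.MVO Pool.Agent.MWL Pool.Agent.MWS
  Pool.Agent.MWG

theorem fil (hGMD : GmdStmt) : FilStmt := by
  intro β θ hc hle hF p q x hp hq
  have hG : ∀ (p q : List ℕ) (m m' : ℕ), x ∈ p → 1 ≤ m → 1 ≤ m' →
      RR θ (p ++ (List.replicate m x ++ q)) (p ++ (List.replicate m' x ++ q)) :=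
    fun p q m m' h1 h2 h3 => hle _ _ ((hGMD β hc).1 p q x m m' h1 h2 h3)
  have hxp : x ∈ p := List.count_pos_iff.1 (by omega)
  obtain ⟨s, t, hs, hst⟩ := List.eq_append_cons_of_mem hxp
  have hxt : x ∈ t := by
    rw [hs, List.count_append, List.count_cons_self, List.count_eq_zero_of_not_mem hst] at hp
    exact List.count_pos_iff.1 (by omega)
  obtain ⟨p2, p3, hp23⟩ := List.append_of_mem hxt
  obtain ⟨q1, q2, hq12⟩ := List.append_of_mem hq
  have hA : x ∈ s ++ x :: p2 := List.mem_append_right _ List.mem_cons_self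
  have h1 := hG (s ++ x :: p2) (p3 ++ (q1 ++ (x :: q2))) 1 2 hA (le_refl 1) (by omega)
  have h2 := hG (s ++ x :: p2 ++ (List.replicate 2 x ++ (p3 ++ q1))) q2 1 2
    (List.mem_append_left _ hA) (le_refl 1) (by omega)
  have h3 : RR θ ([x, x] ++ (p3 ++ (q1 ++ [x, x]))) ([x, x] ++ (p3 ++ ([x, x] ++ (q1 ++ [x, x])))) := by
    have h := RR.sub (fun c => if c = 0 then [x] else if c = 2 then p3 else q1) hF
    simpa using h
  have h4 := ((RR.refl (β := θ) (s ++ x :: p2)).append h3).append (RR.refl (β := θ) q2)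
  have h5 := hG (s ++ x :: p2) (p3 ++ ([x, x] ++ (q1 ++ ([x, x] ++ q2)))) 2 1 hA (by omega)
    (le_refl 1)
  have h6 := hG (s ++ x :: p2 ++ (x :: (p3 ++ ([x, x] ++ q1)))) q2 2 1
    (List.mem_append_left _ hA) (by omega) (le_refl 1)
  have e : ∀ {a b c d : List ℕ}, RR θ a b → RR θ c d → b = c → RR θ a d := by
    intro a b c d h h' hbc
    subst hbc
    exact θ.trans h h'
  have k1 := e (e (e (e h1 h2 (by simp [List.replicate])) h4 (by simp [List.replicate])) h5
    (by simp [List.replicate])) h6 (by simp [List.replicate])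
  have e1 : p ++ q = s ++ x :: p2 ++ (List.replicate 1 x ++ (p3 ++ (q1 ++ (x :: q2)))) := by
    rw [hs, hp23, hq12]
    simp
  have e2 : p ++ (x :: x :: q) =
      s ++ x :: p2 ++ (x :: (p3 ++ ([x, x] ++ q1))) ++ (List.replicate 1 x ++ q2) := by
    rw [hs, hp23, hq12]
    simp
  rw [e1, e2]
  exact k1

end Pool.Agent.MWG.H25
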